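import Pool.Agent.MX.SmFinal

/-! Positivity and Ultimate Positivity are in `∀ℝ` up to an exponentially small fraction of the
initial values of every recurrence. -/

set_option autoImplicit false

namespace Pool.Agent.Results.MP_dd7719_lc.AlmostAllInitial

open Pool.Agent.UltPos Pool.Agent.AllR

/-- There are two languages `P`, `U` in `∀ℝ`, the first contained in Positivity, the second in
Ultimate Positivity, and a constant `c` such that for every recurrence (any order, repeated roots
allowed), every cube of side `2^p` of integer vectors and every denominator `q`, the fraction of the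
initial vectors of this cube, divided by `q`, for which `P` or `U` gives a wrong answer is at most
`2^(n^c + c) / 2^p`, where `n` is the length of the code of the coefficients. -/
theorem result : ∃ P U : Set (List ISym), InForallR P ∧ InForallR U ∧
    (∀ w ∈ P, ∃ I : Inst, w = I.enc ∧ I.Positive) ∧
    (∀ w ∈ U, ∃ I : Inst, w = I.enc ∧ I.UltimatelyPositive) ∧
    ∃ c : ℕ, ∀ (I : Inst) (b : Fin I.k → ℤ) (q : ℕ) (hq : 0 < q) (p : ℕ),
      Nat.card {w : Fin I.k → Fin (2 ^ p) //
        ¬ ((I.withInit (fun i => b i + ((w i : ℕ) : ℤ)) q hq).Positive ↔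
          (I.withInit (fun i => b i + ((w i : ℕ) : ℤ)) q hq).enc ∈ P) ∨
        ¬ ((I.withInit (fun i => b i + ((w i : ℕ) : ℤ)) q hq).UltimatelyPositive ↔
          (I.withInit (fun i => b i + ((w i : ℕ) : ℤ)) q hq).enc ∈ U)} * 2 ^ p ≤
      2 ^ (I.coefLength ^ c + c) * (2 ^ p) ^ I.k :=
  exists_almost_all

end Pool.Agent.Results.MP_dd7719_lc.AlmostAllInitial
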