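import Pool.Agent.DensePos.Main
import Pool.Agent.FixLam.Main

/-! Positivity and Ultimate Positivity are in `∀ℝ` up to sparse sets of indices, and, for frozen positive
instances with a fixed set of characteristic roots, up to finitely many instances. -/

set_option autoImplicit false

namespace Pool.Agent.Results.MP_dd7719_lc.AlmostPositivity

open Pool.Agent.UltPos Pool.Agent.AllR Filter

/-- (1) All linear recurrences: Positivity and Ultimate Positivity, restricted to one universal set `S`
of indices of density one (Positivity together with an initial segment of length `2 ^ poly(L)`, `L` the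
length of the input), belong to `∀ℝ`. (2) Simple recurrences: here the complement of `S` is very sparse.
(3) One language in `∀ℝ`, contained in Frozen Positivity, agrees with positivity and frozen positivity
for all but finitely many of the recurrences (of any order, with any multiplicities) whose
characteristic roots are among the roots of a fixed polynomial `Q`, for every `Q`. (4) For each `Q` the
positive and frozen positive instances of this kind, and the positive non-critical ones, form sets in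
`∀ℝ`. -/
theorem result :
    (∃ (δ : ℝ) (c₀ : ℕ) (S : Set ℕ), 0 < δ ∧
      (∀ᶠ X : ℕ in atTop, ((Sᶜ ∩ Set.Iio X).ncard : ℝ) ≤ X / 2 ^ ((Real.logb 2 X) ^ δ)) ∧
      (∀ c, c₀ ≤ c → InForallR {w : List ISym | ∃ I : Inst, w = I.enc ∧ I.PosOn c S}) ∧
      InForallR {w : List ISym | ∃ I : Inst, w = I.enc ∧ I.UltPosOn S} ∧
      ∀ I : Inst, I.UltPosOn S → ∀ v : ℕ → ℚ, I.IsSeq v → ∀ n ∈ S,
        2 ^ ((I.enc.length + 2) ^ c₀) ≤ n → 0 < v n) ∧
    (∀ δ : ℝ, 0 < δ → ∃ (c₀ : ℕ) (S : Set ℕ),
      (∀ᶠ X : ℕ in atTop, ((Sᶜ ∩ Set.Iio X).ncard : ℝ) ≤ 2 ^ ((Real.logb 2 X) ^ δ)) ∧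
      ∀ c, c₀ ≤ c → InForallR {w : List ISym | ∃ I : Inst, w = I.enc ∧ I.Simple ∧ I.PosOn c S}) ∧
    (∃ P : Set (List ISym), InForallR P ∧
      (∀ w ∈ P, ∃ I : Inst, w = I.enc ∧ I.FrozenPositive) ∧
      ∀ Q : Polynomial ℚ, Q ≠ 0 → {w : List ISym | ∃ I : Inst, w = I.enc ∧ I.RootsIn Q ∧
        ¬ (w ∈ P ↔ I.Positive ∧ I.FrozenPositive)}.Finite) ∧
    ∀ Q : Polynomial ℚ, Q ≠ 0 →
      InForallR {w : List ISym | ∃ I : Inst, w = I.enc ∧ I.RootsIn Q ∧ I.Positive ∧
        I.FrozenPositive} ∧
      InForallR {w : List ISym | ∃ I : Inst, w = I.enc ∧ I.RootsIn Q ∧ I.Positive ∧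
        ¬ I.Critical} :=
  ⟨general_main, fun δ hδ => by
      obtain ⟨c₀, S, h1, h2⟩ := simple_main δ hδ
      exact ⟨c₀, S, h1, fun c hc => (h2 c hc).1⟩, lam_main,
    fun Q hQ => ⟨lam_frozen Q hQ, lam_noncritical Q hQ⟩⟩

end Pool.Agent.Results.MP_dd7719_lc.AlmostPositivity
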