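import Pool.Agent.FrMul.FinM
import Pool.Agent.FrNar.CorA
import Pool.Agent.FrNar.CorC
import Pool.Agent.FrNar.Nine
import Pool.Agent.FrNar.Simp
import Pool.Agent.FrEight.Ex
import Pool.Agent.MX.Five
import Pool.Agent.F1.Final

/-! Positivity of frozen positive linear recurrences. -/

set_option autoImplicit false

namespace Pool.Agent.Results.MP_dd7719_lc.FrozenPositivity

open Pool.Agent.UltPos Pool.Agent.AllR

/-- Write `u_n = ∑ p_z(n) z^n` (over the distinct roots).  The following sets of codes of positive
instances are in `∀ℝ`: (1) those of order at most nine all of whose frozen sequences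
`n ↦ ∑ p_z(x) z^n` (`x` large, rational) are ultimately positive; (2) for every `s`, those with at most
`s` distinct roots on each circle which contains a multiple root whose frozen sequences are ultimately
positive and narrow (so all simple narrow ones, of every order); (3) for every `c`, those that are
regular with margin `2 ^ -(n ^ c + c)`, `n` the length of the code.  Positive instances that are not
critical are frozen positive; simple ones, those with at most eight roots on each circle, at most two of
them multiple (in particular those of order at most five), and regular ones are not critical; there are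
critical frozen positive ones of order six.  Regular positive instances, frozen positive ones with at
most eight roots on each circle, and simple positive ones with at most ten roots on each circle which
are not exceptional have narrow frozen sequences. -/
theorem result :
    InForallR {w : List ISym | ∃ I : Inst, w = I.enc ∧ I.Positive ∧ I.FrozenPositive ∧
      I.k ≤ 9} ∧
    (∀ s : ℕ, InForallR {w : List ISym | ∃ I : Inst, w = I.enc ∧ I.Positive ∧ I.FrozenPositive ∧
      I.FrozenNarrow ∧ I.AtMostWithMultiple s}) ∧
    (∀ c : ℕ, InForallR {w : List ISym | ∃ I : Inst, w = I.enc ∧ I.Positive ∧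
      I.RegularWith (1 / 2 ^ (w.length ^ c + c))}) ∧
    (∀ I : Inst, I.Positive → ¬ I.Critical → I.FrozenPositive) ∧
    (∀ I : Inst, I.Positive → I.Simple ∨ (I.AtMostPerCircle 8 ∧ I.TwoMultiple) ∨ I.Regular →
      ¬ I.Critical) ∧
    (∀ I : Inst, I.k ≤ 5 → I.AtMostPerCircle 8 ∧ I.TwoMultiple) ∧
    (∃ I : Inst, I.k = 6 ∧ I.Positive ∧ I.FrozenPositive ∧ I.Critical) ∧
    (∀ I : Inst, I.Simple → I.AtMostWithMultiple 0 ∧ (I.Narrow → I.FrozenNarrow)) ∧
    (∀ I : Inst, I.FrozenPositive → I.AtMostPerCircle 8 → I.FrozenNarrow) ∧
    (∀ I : Inst, I.Positive → I.Regular → I.FrozenNarrow) ∧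
    (∀ I : Inst, I.Positive → I.Simple → I.AtMostPerCircle 10 → ¬ I.Exceptional →
      I.FrozenNarrow) := by
  refine ⟨inForallR_frozen_nine, inForallR_frozen_narrowM, inForallR_regularWith, ?_, ?_, ?_,
    ⟨exI, rfl, exI_positive, exI_frozen, exI_critical⟩,
    fun I hS => ⟨hS.withMultiple 0, hS.frozenNarrow_iff.mpr⟩, fun _ h h8 => h.frozenNarrow h8,
    fun _ hP hR => (Inst.regular_frozen hP hR).2.2,
    fun I hP hS h10 hE => hS.frozenNarrow_iff.mpr ((hS.narrow_iff_not_exceptional hP h10).mpr hE)⟩
  · intro I hP hc
    exact Inst.frozenPositive_of_not_critical (fun v hv => ⟨0, fun n _ => hP v hv n⟩)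
      fun hM => hc (Inst.critical_ofM (fun v hv => ⟨0, fun n _ => hP v hv n⟩) hM)
  · rintro I hP (hS | ⟨h8, h2⟩ | hR)
    · exact hS.not_critical
    · exact (Inst.regular_frozen hP (Inst.regular_of_twoMultiple hP h8 h2)).1
    · exact (Inst.regular_frozen hP hR).1
  · exact fun I h => ⟨Inst.eight_of_order (by omega), Inst.twoMultiple_of_order h⟩

end Pool.Agent.Results.MP_dd7719_lc.FrozenPositivity
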