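import Pool.Agent.FrozenUP.Seven
import Pool.Agent.FrozenUP.Example

/-! Frozen positivity: a large part of Ultimate Positivity, containing all non-critical and in
particular all simple recurrences, that belongs to `∀ℝ`; what is left in order at most seven. -/

set_option autoImplicit false

namespace Pool.Agent.Results.MP_dd7719_lc.FrozenUP

open Pool.Agent.UltPos Pool.Agent.AllR

/-- Write `u_n = ∑ p_z(n) z^n` (over the distinct roots).  The set of the instances all of whose
frozen sequences `n ↦ ∑ p_z(x) z^n` (`x` large, rational) are ultimately positive is in `∀ℝ`, is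
contained in Ultimate Positivity, contains all non-critical ultimately positive instances (and some
critical ones), and coincides with Ultimate Positivity on the simple instances.  The non-critical
instances are in `∀ℝ` as well.  In order at most seven an ultimately positive instance which is not
frozen positive has a one-sided gap. -/
theorem result :
    InForallR {w : List ISym | ∃ I : Inst, w = I.enc ∧ I.FrozenPositive} ∧
    (∀ I : Inst, I.FrozenPositive → I.UltimatelyPositive) ∧
    (∀ I : Inst, I.UltimatelyPositive → ¬ I.Critical → I.FrozenPositive) ∧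
    (∃ I : Inst, I.k = 6 ∧ I.FrozenPositive ∧ I.Critical) ∧
    (∀ I : Inst, I.Simple → ¬ I.Critical ∧ (I.FrozenPositive ↔ I.UltimatelyPositive)) ∧
    (∀ I : Inst, I.k ≤ 7 → I.UltimatelyPositive → ¬ I.FrozenPositive → I.OneSidedGap) ∧
    InForallR {w : List ISym | ∃ I : Inst, w = I.enc ∧ I.UltimatelyPositive ∧ ¬ I.Critical} :=
  ⟨inForallR_frozen, fun _ h => h.ultimatelyPositive,
    fun _ h hc => Inst.frozenPositive_of_not_critical h fun hM => hc (Inst.critical_ofM h hM),
    ⟨exI, rfl, exI_frozen, exI_critical⟩,
    fun _ hI => ⟨hI.not_critical, hI.frozenPositive_iff⟩,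
    fun _ hk h hf => Inst.gap_seven hk h hf, inForallR_noncritical⟩

end Pool.Agent.Results.MP_dd7719_lc.FrozenUP
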